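import Pool.Agent.H46.DTw

set_option autoImplicit false

open UpperHalfPlane Pool.Agent.H46.DTw
open scoped MatrixGroups

namespace Pool.Agent.Results.MP_d17ed7_nt.SignObstruction

/-- `f` is a newform of level one and weight 12 with Fourier coefficients `a`: a normalised
cusp form for `SL₂(ℤ)` that is an eigenfunction of `T_p` for every prime `p`. -/
def IsNewform (f : CuspForm 𝒮ℒ 12) (a : ℕ → ℂ) : Prop :=
  (∀ τ : ℍ, HasSum (fun n : ℕ => a n * Complex.exp (2 * Real.pi * Complex.I * n * τ)) (f τ)) ∧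
  a 1 = 1 ∧ ∀ p : ℕ, p.Prime → ∃ c : ℂ, ∀ τ : ℍ,
    (p : ℂ) ^ 11 * f (ofComplex (p * τ)) +
      (∑ b ∈ Finset.range p, f (ofComplex ((τ + b) / p))) / p = c * f τ

/-- `L` is the entire continuation of `∑ a(n) ψ(n) n^{-s-11/2}` (centre `s = 1/2`). -/
def IsTwistL (a : ℕ → ℂ) {q : ℕ} (ψ : DirichletCharacter ℂ q) (L : ℂ → ℂ) : Prop :=
  Differentiable ℂ L ∧ ∀ s : ℂ, 3 / 2 < s.re →
    HasSum (fun n : ℕ => a n * ψ n / (n : ℂ) ^ (s + 11 / 2)) (L s)

/-- A primitive Dirichlet character of order exactly 2 (positive modulus). -/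
def IsQuadChar {q : ℕ} (ψ : DirichletCharacter ℂ q) : Prop :=
  0 < q ∧ ψ.IsPrimitive ∧ orderOf ψ = 2

theorem result : ∃ (f : CuspForm 𝒮ℒ 12) (a : ℕ → ℂ), IsNewform f a ∧
    ∃ (m : ℕ) (χ : DirichletCharacter ℂ m), IsQuadChar χ ∧
      ∀ (q : ℕ) (ψ : DirichletCharacter ℂ q), IsQuadChar ψ →
        ∃ L₁ L₂ : ℂ → ℂ, IsTwistL a ψ L₁ ∧ IsTwistL a (χ.primitive_mul ψ) L₂ ∧
          L₁ (1 / 2) * L₂ (1 / 2) = 0 := by
  have : Fact (Nat.Prime 3) := ⟨Nat.prime_three⟩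
  let χ : DirichletCharacter ℂ 3 := (quadraticChar (ZMod 3)).ringHomComp (Int.castRingHom ℂ)
  have c1 : χ (-1) = -1 := by
    have : quadraticChar (ZMod 3) (-1) = -1 :=
      quadraticChar_neg_one_iff_not_isSquare.mpr fun ⟨r, h⟩ =>
        (by decide : ∀ r : Fin 3, -1 ≠ r * r) r h
    simp [χ, this]
  have c2 : χ ≠ 1 := fun h => by
    rw [h, MulChar.one_apply isUnit_one.neg] at c1
    norm_num at c1
  have c3 : χ ^ 2 = 1 := ((quadraticChar_isQuadratic _).comp _).sq_eq_one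
  refine ⟨CuspForm.discriminant, tau, ⟨fun τ => by simpa [F] using F_has τ.im_pos,
    ModularForm.discriminant_qExpansion_coeff_one, fun p hp => (hecke hp).imp fun c h τ => by
      simpa [F, Tp] using h τ τ.im_pos⟩, 3, χ, ⟨by norm_num, ?_, orderOf_eq_prime c3 c2⟩,
    fun q ψ ⟨hq, h1, h2⟩ => ?_⟩
  · exact ((Nat.dvd_prime Nat.prime_three).mp χ.conductor_dvd_level).resolve_left fun h =>
      c2 (DirichletCharacter.eq_one_iff_conductor_eq_one.mpr h)
  have : NeZero q := ⟨hq.ne'⟩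
  have : NeZero (Nat.lcm 3 q) := ⟨Nat.lcm_ne_zero (by norm_num) hq.ne'⟩
  have : NeZero (χ.mul ψ).conductor := ⟨(χ.mul ψ).conductor_ne_zero⟩
  have s2 : ψ ^ 2 = 1 := h2 ▸ pow_orderOf_eq_one ψ
  have q2 := MulChar.isQuadratic_iff_sq_eq_one.mpr s2
  obtain ⟨L₁, a1, a2, a3⟩ := twist h1 q2
  obtain ⟨L₂, b1, b2, b3⟩ := twist (χ.primitive_mul_isPrimitive ψ)
    (MulChar.isQuadratic_iff_sq_eq_one.mpr (DirichletCharacter.changeLevel_injective
      (χ.mul ψ).conductor_dvd_level (by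
        rw [map_pow, DirichletCharacter.mul_def, DirichletCharacter.changeLevel_primitiveCharacter,
          DirichletCharacter.mul, mul_pow, ← map_pow, ← map_pow, c3, s2]
        simp)))
  refine ⟨L₁, L₂, ⟨a1, a2⟩, ⟨b1, b2⟩, ?_⟩
  rcases ψ.even_or_odd with h | h
  · have k : ∀ n : ℕ, IsCoprime (-1 : ℤ) n := fun n => isCoprime_one_left.neg_left
    have e1 := (χ.mul ψ).primitiveCharacter_apply_of_isCoprime (k _)
    have e2 := χ.changeLevel_eq_cast_of_dvd' (Nat.dvd_lcm_left 3 q) (k _)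
    have e3 := ψ.changeLevel_eq_cast_of_dvd' (Nat.dvd_lcm_right 3 q) (k _)
    push_cast at e1 e2 e3
    rw [b3 (by rw [DirichletCharacter.mul_def, e1, DirichletCharacter.mul, MulChar.mul_apply, e2,
      e3, c1, show ψ (-1) = 1 from h, mul_one]), mul_zero]
  · rw [a3 h, zero_mul]

end Pool.Agent.Results.MP_d17ed7_nt.SignObstruction
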